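import Pool.Agent.Q107.IRB.General

/-!
# Bipartite graphs with `IR_b / Γ_b` close to two
-/

set_option autoImplicit false

namespace Q107.IRB.Family

open SimpleGraph Finset Q107.Broadcast Q107.IRB

/-- vertices: type, level, column (`none` is the hub of the level) -/
abbrev Vt (n k : ℕ) : Type := Bool × Fin (k + 1) × Option (Fin n)

/-- the horizontal part of the distance -/
def T {n : ℕ} (same : Prop) [Decidable same] (lev : Prop) [Decidable lev] :
    Option (Fin n) → Option (Fin n) → ℕ
  | some i, some j => if same then (if i = j then 0 else 2) else 1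
  | some _, none => if same then 1 else 2
  | none, some _ => if same then 1 else 2
  | none, none => if same then (if lev then 0 else 2) else 3

/-- the distances -/
def D {n k : ℕ} (x y : Vt n k) : ℕ :=
  (x.2.1.val - y.2.1.val) + (y.2.1.val - x.2.1.val) + T (x.1 = y.1) (x.2.1 = y.2.1) x.2.2 y.2.2

section

variable {n k : ℕ} (a b : Bool) (l m : Fin (k + 1)) (i j : Fin n)

lemma D_ss : D (a, l, some i) (b, m, some j) =
    (l.val - m.val) + (m.val - l.val) + if a = b then (if i = j then 0 else 2) else 1 := rfl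

lemma D_sn : D (a, l, some i) (b, m, none) =
    (l.val - m.val) + (m.val - l.val) + if a = b then 1 else 2 := rfl

lemma D_ns : D (a, l, none) (b, m, some j) =
    (l.val - m.val) + (m.val - l.val) + if a = b then 1 else 2 := rfl

lemma D_nn : D ((a, l, none) : Vt n k) (b, m, none) =
    (l.val - m.val) + (m.val - l.val) + (if a = b then (if l = m then 0 else 2) else 3) := rfl

end

lemma D_comm {n k : ℕ} (x y : Vt n k) : D x y = D y x := by
  obtain ⟨a, l, c⟩ := x
  obtain ⟨b, m, d⟩ := y
  rcases c with _ | i <;> rcases d with _ | j <;>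
    simp only [D, T, eq_comm (a := b) (b := a), eq_comm (a := m) (b := l)] <;>
    (try simp only [eq_comm (a := j) (b := i)]) <;> omega

/-- the graph -/
def G (n k : ℕ) : SimpleGraph (Vt n k) where
  Adj x y := D x y = 1
  symm := ⟨fun x y h => by rw [D_comm]; exact h⟩
  loopless := ⟨fun x h => by
    obtain ⟨a, l, c⟩ := x
    rcases c with _ | i <;> simp [D, T] at h⟩

lemma adj_iff {n k : ℕ} (x y : Vt n k) : (G n k).Adj x y ↔ D x y = 1 := Iff.rfl

lemma tbl {n k : ℕ} (hn : 0 < n) (x y : Vt n k) :
    (G n k).Reachable x y ∧ (G n k).dist x y = D x y := by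
  apply table
  · rintro ⟨a, l, _ | i⟩ <;> simp [D, T]
  · rintro ⟨a, l, c⟩ ⟨b, m, d⟩ ⟨b', m', d'⟩ h
    rw [adj_iff] at h
    rcases c with _ | c <;> rcases d with _ | d <;> rcases d' with _ | d' <;>
      simp only [D_ss, D_sn, D_ns, D_nn] at h ⊢ <;>
      cases a <;> cases b <;> cases b' <;> simp only [Fin.ext_iff, if_true, reduceCtorEq,
        if_false] at h ⊢ <;> (try split_ifs at h ⊢) <;> omega
  · rintro ⟨a, l, c⟩ ⟨b, m, d⟩ hne
    have hl := l.2
    have hm := m.2
    rcases d with _ | j
    · by_cases hab : a = b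
      · subst hab
        rcases c with _ | i
        · have hlm : l ≠ m := fun h => hne (by rw [h])
          refine ⟨(a, m, some ⟨0, hn⟩), ?_, ?_⟩
          · rw [adj_iff, D_sn, if_pos rfl]; omega
          · rw [D_ns, D_nn, if_pos rfl, if_pos rfl, if_neg hlm]
        · refine ⟨(a, m, some i), ?_, ?_⟩
          · rw [adj_iff, D_sn, if_pos rfl]; omega
          · rw [D_ss, D_sn, if_pos rfl, if_pos rfl, if_pos rfl]
      · refine ⟨(b, m, some ⟨0, hn⟩), ?_, ?_⟩
        · rw [adj_iff, D_sn, if_pos rfl]; omega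
        · rcases c with _ | i
          · rw [D_ns, D_nn, if_neg hab, if_neg hab]
          · rw [D_ss, D_sn, if_neg hab, if_neg hab]
    · by_cases hab : a = b
      · subst hab
        rcases c with _ | i
        · by_cases hlm : l = m
          · subst hlm
            refine ⟨(a, l, none), ?_, ?_⟩
            · rw [adj_iff, D_ns, if_pos rfl]; omega
            · rw [D_ns, D_nn, if_pos rfl, if_pos rfl, if_pos rfl]
          · have hlm' : l.val ≠ m.val := fun h => hlm (Fin.ext h)
            by_cases hlt : l.val < m.val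
            · refine ⟨(a, ⟨m.val - 1, by omega⟩, some j), ?_, ?_⟩
              · rw [adj_iff, D_ss, if_pos rfl, if_pos rfl]; dsimp only; omega
              · rw [D_ns, D_ns]; dsimp only; omega
            · refine ⟨(a, ⟨m.val + 1, by omega⟩, some j), ?_, ?_⟩
              · rw [adj_iff, D_ss, if_pos rfl, if_pos rfl]; dsimp only; omega
              · rw [D_ns, D_ns]; dsimp only; omega
        · by_cases hij : i = j
          · subst hij
            have hlm' : l.val ≠ m.val := fun h => hne (by rw [Fin.ext h])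
            by_cases hlt : l.val < m.val
            · refine ⟨(a, ⟨m.val - 1, by omega⟩, some i), ?_, ?_⟩
              · rw [adj_iff, D_ss, if_pos rfl, if_pos rfl]; dsimp only; omega
              · rw [D_ss, D_ss]; dsimp only; omega
            · refine ⟨(a, ⟨m.val + 1, by omega⟩, some i), ?_, ?_⟩
              · rw [adj_iff, D_ss, if_pos rfl, if_pos rfl]; dsimp only; omega
              · rw [D_ss, D_ss]; dsimp only; omega
          · refine ⟨(a, m, none), ?_, ?_⟩
            · rw [adj_iff, D_ns, if_pos rfl]; omega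
            · rw [D_sn, D_ss, if_pos rfl, if_pos rfl, if_neg hij]
      · rcases c with _ | i
        · refine ⟨(a, m, some ⟨0, hn⟩), ?_, ?_⟩
          · rw [adj_iff, D_ss, if_neg hab]; omega
          · rw [D_ns, D_ns, if_neg hab, if_pos rfl]
        · refine ⟨(a, m, some i), ?_, ?_⟩
          · rw [adj_iff, D_ss, if_neg hab]; omega
          · rw [D_ss, D_ss, if_neg hab, if_pos rfl, if_pos rfl]

lemma dist_eq {n k : ℕ} (hn : 0 < n) (x y : Vt n k) : (G n k).dist x y = D x y := (tbl hn x y).2

lemma connected {n k : ℕ} (hn : 0 < n) : (G n k).Connected := by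
  rw [connected_iff]
  exact ⟨fun x y => (tbl hn x y).1, ⟨(true, 0, none)⟩⟩

/-- the parity of a vertex -/
def par {n k : ℕ} (x : Vt n k) : ℕ :=
  x.2.1.val + (if x.1 = true then 1 else 0) + (if x.2.2 = none then 1 else 0)

lemma bipartite {n k : ℕ} : (G n k).IsBipartite := by
  refine ⟨Coloring.mk (fun x => (⟨par x % 2, Nat.mod_lt _ (by norm_num)⟩ : Fin 2)) ?_⟩
  rintro ⟨a, l, c⟩ ⟨b, m, d⟩ h hc
  rw [adj_iff] at h
  have hc' : par (a, l, c) % 2 = par (b, m, d) % 2 := congrArg Fin.val hc
  rcases c with _ | c <;> rcases d with _ | d <;> cases a <;> cases b <;>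
    simp [D_ss, D_sn, D_ns, D_nn, par, Fin.ext_iff] at h hc' <;>
    (try split_ifs at h) <;> omega

/-! ### the irredundant broadcast -/

/-- the broadcast -/
def fb {n k : ℕ} (x : Vt n k) : ℕ := if x.2.1 = Fin.last k ∧ x.2.2 ≠ none then k else 0

lemma fb_pos {n k : ℕ} {v : Vt n k} (h : 0 < fb v) : ∃ a i, v = (a, Fin.last k, some i) := by
  obtain ⟨a, l, c⟩ := v
  unfold fb at h
  split_ifs at h with h1
  · obtain ⟨h2, h3⟩ := h1
    rcases c with _ | i
    · exact absurd rfl h3
    · exact ⟨a, i, by rw [show l = Fin.last k from h2]⟩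
  · omega

lemma fb_top {n k : ℕ} (a : Bool) (i : Fin n) : fb ((a, Fin.last k, some i) : Vt n k) = k := by
  simp [fb]

lemma fb_sum {n k : ℕ} : 2 * n * k ≤ ∑ v : Vt n k, fb v := by
  let e : Bool × Fin n ↪ Vt n k := ⟨fun x => (x.1, Fin.last k, some x.2), fun x y h => by
    simpa [Prod.ext_iff] using h⟩
  have h1 : ∑ x ∈ (univ : Finset (Bool × Fin n)).map e, fb x ≤ ∑ v : Vt n k, fb v :=
    Finset.sum_le_sum_of_subset (Finset.subset_univ _)
  rw [Finset.sum_map] at h1
  have h2 : ∀ x : Bool × Fin n, fb (e x) = k := fun x => fb_top x.1 x.2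
  simp only [h2, Finset.sum_const, Finset.card_univ,
    Fintype.card_prod, Fintype.card_bool, Fintype.card_fin, smul_eq_mul] at h1
  exact h1

lemma le_IR {n k : ℕ} (hn : 0 < n) (hk : 0 < k) : 2 * n * k ≤ upperIrrNum (G n k) := by
  refine fb_sum.trans (le_irr ?_ ?_)
  · intro v
    by_cases h : 0 < fb v
    · obtain ⟨a, i, rfl⟩ := fb_pos h
      rw [fb_top]
      have h1 := dist_le_ecc (G := G n k) (a, 0, some i) (a, Fin.last k, some i)
      rw [dist_eq hn, D_ss, if_pos rfl, if_pos rfl] at h1
      simp only [Fin.val_zero, Fin.val_last] at h1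
      omega
    · omega
  · intro v hv
    obtain ⟨a, i, rfl⟩ := fb_pos hv
    refine ⟨(a, 0, some i), ?_, ?_, Or.inr ?_⟩
    · rw [dist_eq hn, D_ss, if_pos rfl, if_pos rfl, fb_top]
      simp
    · intro w hw hpos
      obtain ⟨b, j, rfl⟩ := fb_pos hpos
      rw [dist_eq hn, D_ss, fb_top]
      simp only [Fin.val_zero, Fin.val_last]
      by_cases hab : a = b
      · subst hab
        have hij : i ≠ j := fun h => hw (by rw [h])
        rw [if_pos rfl, if_neg hij]
        omega
      · rw [if_neg hab]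
        omega
    · rw [dist_eq hn, D_ss, if_pos rfl, if_pos rfl, fb_top]
      simp

/-! ### minimal dominating broadcasts -/

section upper

variable {n k : ℕ} {g : Vt n k → ℕ} {p : Vt n k → Vt n k}

/-- at least two broadcasting vertices have their private vertices in the columns of the type `b`
and the level `s` -/
def Rich (g : Vt n k → ℕ) (p : Vt n k → Vt n k) (b : Bool) (s : Fin (k + 1)) : Prop :=
  ∃ v w, v ≠ w ∧ 0 < g v ∧ 0 < g w ∧ (∃ i, p v = (b, s, some i)) ∧ ∃ j, p w = (b, s, some j)

lemma rich_good (hp1 : ∀ v, 0 < g v → D (p v) v ≤ g v)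
    (hp2 : ∀ v, 0 < g v → ∀ w, w ≠ v → 0 < g w → g w < D (p v) w)
    (hp3 : ∀ v, 0 < g v → g v = 1 ∨ D (p v) v = g v) {b : Bool} {s : Fin (k + 1)}
    (hR : Rich g p b s) {v : Vt n k} (hv : 0 < g v) {j : Fin n} (hj : p v = (b, s, some j)) :
    ∃ m : Fin (k + 1), v = (b, m, some j) ∧ ((m.val = s.val ∧ g v = 1) ∨
      (m.val ≠ s.val ∧ g v = (m.val - s.val) + (s.val - m.val))) := by
  -- another broadcasting vertex with a private vertex in this level
  obtain ⟨w, i, hwv, hw, hi⟩ : ∃ w i, w ≠ v ∧ 0 < g w ∧ p w = (b, s, some i) := by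
    obtain ⟨x, y, hxy, hx, hy, ⟨i, hi⟩, ⟨j', hj'⟩⟩ := hR
    by_cases hxv : x = v
    · exact ⟨y, j', fun h => hxy (hxv.trans h.symm), hy, hj'⟩
    · exact ⟨x, i, hxv, hx, hi⟩
  have h1 := hp2 w hw v hwv.symm hv
  have h2 := hp1 v hv
  have h3 := hp3 v hv
  rw [hi] at h1
  rw [hj] at h2 h3
  obtain ⟨a, m, c⟩ := v
  rcases c with _ | c
  · rw [D_sn] at h1 h2
    omega
  · rw [D_ss] at h1 h2 h3
    by_cases hba : b = a
    · subst hba
      simp only [if_true] at h1 h2 h3
      by_cases hjc : j = c
      · subst hjc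
        refine ⟨m, rfl, ?_⟩
        simp only [if_true] at h2 h3
        omega
      · rw [if_neg hjc] at h2
        split_ifs at h1 <;> omega
    · rw [if_neg hba] at h1 h2
      omega

lemma one_type (hdom : ∀ u, ∃ v, 0 < g v ∧ D u v ≤ g v)
    (hp2 : ∀ v, 0 < g v → ∀ w, w ≠ v → 0 < g w → g w < D (p v) w) {a b : Bool}
    (hab : a ≠ b) {s : Fin (k + 1)} (hR : Rich g p a s) (hR' : Rich g p b s) : False := by
  obtain ⟨w, hw, hdw⟩ := hdom (a, s, none)
  obtain ⟨v, i, hv, hvw, hi⟩ : ∃ v i, 0 < g v ∧ v ≠ w ∧ p v = (a, s, some i) := by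
    obtain ⟨x, y, hxy, hx, hy, ⟨i, hi⟩, ⟨j', hj'⟩⟩ := hR
    by_cases hxv : x = w
    · exact ⟨y, j', hy, fun h => hxy (hxv.trans h.symm), hj'⟩
    · exact ⟨x, i, hx, hxv, hi⟩
  obtain ⟨v', i', hv', hvw', hi'⟩ : ∃ v i, 0 < g v ∧ v ≠ w ∧ p v = (b, s, some i) := by
    obtain ⟨x, y, hxy, hx, hy, ⟨i, hi⟩, ⟨j', hj'⟩⟩ := hR'
    by_cases hxv : x = w
    · exact ⟨y, j', hy, fun h => hxy (hxv.trans h.symm), hj'⟩
    · exact ⟨x, i, hx, hxv, hi⟩
  have h1 := hp2 v hv w hvw.symm hw
  have h2 := hp2 v' hv' w hvw'.symm hw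
  rw [hi] at h1
  rw [hi'] at h2
  obtain ⟨c, l, e⟩ := w
  rcases e with _ | e
  · rw [D_nn] at hdw
    rw [D_sn] at h1
    split_ifs at hdw h1 with h3 h4 <;> omega
  · rw [D_ns] at hdw
    rw [D_ss] at h1 h2
    by_cases hac : a = c
    · subst hac
      rw [if_neg (Ne.symm hab)] at h2
      rw [if_pos rfl] at hdw
      omega
    · rw [if_neg hac] at h1 hdw
      omega

/-- the broadcasting vertices whose private vertex is in a rich level -/
def Good (g : Vt n k → ℕ) (p : Vt n k → Vt n k) (v : Vt n k) : Prop :=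
  0 < g v ∧ ∃ b s j, p v = (b, s, some j) ∧ Rich g p b s

lemma good_sum (hdom : ∀ u, ∃ v, 0 < g v ∧ D u v ≤ g v)
    (hp1 : ∀ v, 0 < g v → D (p v) v ≤ g v)
    (hp2 : ∀ v, 0 < g v → ∀ w, w ≠ v → 0 < g w → g w < D (p v) w)
    (hp3 : ∀ v, 0 < g v → g v = 1 ∨ D (p v) v = g v) (S : Finset (Vt n k))
    (hS : ∀ v ∈ S, Good g p v) : ∑ v ∈ S, g v ≤ (k + 1) * n := by
  classical
  have hn : ∀ v ∈ S, 0 < n := by
    intro v hv
    obtain ⟨_, _, _, j, _⟩ := hS v hv
    exact lt_of_le_of_lt (Nat.zero_le _) j.2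
  have h1 : (S.sigma fun v => range (g v)).card = ∑ v ∈ S, g v := by
    rw [Finset.card_sigma]
    simp
  rw [← h1]
  -- the description of good vertices
  have hd : ∀ v ∈ S, ∃ b m s j, v = (b, m, some j) ∧ p v = (b, s, some j) ∧ Rich g p b s ∧
      ((m.val = s.val ∧ g v = 1) ∨ (m.val ≠ s.val ∧ g v = (m.val - s.val) + (s.val - m.val))) := by
    intro v hv
    obtain ⟨hpos, b, s, j, hj, hR⟩ := hS v hv
    obtain ⟨m, hm1, hm2⟩ := rich_good hp1 hp2 hp3 hR hpos hj
    exact ⟨b, m, s, j, hm1, hj, hR, hm2⟩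
  have h2 : (S.sigma fun v => range (g v)).card ≤
      ((range (k + 1)) ×ˢ (univ : Finset (Option (Fin n))).erase none).card := by
    apply Finset.card_le_card_of_injOn (fun x => ((if (p x.1).2.1.val < x.1.2.1.val then
      (p x.1).2.1.val + x.2 else (p x.1).2.1.val - x.2), x.1.2.2))
    · rintro ⟨v, t⟩ hx
      simp only [Finset.coe_sigma, Set.mem_sigma_iff, Finset.coe_range, Set.mem_Iio,
        Finset.mem_coe] at hx
      obtain ⟨b, m, s, j, hv, hpv, hR, hm⟩ := hd v hx.1
      have hm' := m.2
      have hs' := s.2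
      have ht : t < g v := hx.2
      simp only [Finset.coe_product, Set.mem_prod, Finset.coe_range, Set.mem_Iio,
        Finset.mem_coe, Finset.mem_erase, Finset.mem_univ, and_true]
      rw [hpv]
      refine ⟨?_, ?_⟩
      · rw [hv]
        dsimp only
        split_ifs <;> omega
      · rw [hv]
        simp
    · rintro ⟨v, t⟩ hx ⟨w, r⟩ hy hxy
      simp only [Finset.coe_sigma, Set.mem_sigma_iff, Finset.coe_range, Set.mem_Iio,
        Finset.mem_coe] at hx hy
      obtain ⟨hx1, ht⟩ := hx
      obtain ⟨hy1, hr⟩ := hy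
      obtain ⟨b, m, s, j, hv, hpv, hR, hm⟩ := hd v hx1
      obtain ⟨b', m', s', j', hw, hpw, hR', hm'⟩ := hd w hy1
      simp only [Prod.mk.injEq] at hxy
      obtain ⟨hxy1, hxy2⟩ := hxy
      rw [hpv, hpw, hv, hw] at hxy1
      rw [hv, hw] at hxy2
      dsimp only at hxy1 hxy2
      have hjj : j = j' := Option.some.inj hxy2
      subst hjj
      by_cases hvw : v = w
      · subst hvw
        have hmm : m = m' := by
          have := hv.symm.trans hw
          exact (Prod.mk.inj (Prod.mk.inj this).2).1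
        have hss : s = s' := by
          have := hpv.symm.trans hpw
          exact (Prod.mk.inj (Prod.mk.inj this).2).1
        subst hmm; subst hss
        have : t = r := by
          split_ifs at hxy1 <;> omega
        subst this
        rfl
      · exfalso
        have hgv := (hS v hx1).1
        have hgw := (hS w hy1).1
        have h3 := hp2 v hgv w (Ne.symm hvw) hgw
        have h4 := hp2 w hgw v hvw hgv
        rw [hpv] at h3
        rw [hpw] at h4
        have h3' : g w < D (b, s, some j) (b', m', some j) := by rw [← hw]; exact h3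
        have h4' : g v < D (b', s', some j) (b, m, some j) := by rw [← hv]; exact h4
        rw [D_ss] at h3' h4'
        by_cases hbb : b = b'
        · subst hbb
          simp only [if_true] at h3' h4'
          split_ifs at hxy1 <;> omega
        · have hss : s.val ≠ s'.val := by
            intro h
            have : s = s' := Fin.ext h
            subst this
            exact one_type hdom hp2 hbb hR hR'
          rw [if_neg hbb] at h3'
          rw [if_neg (Ne.symm hbb)] at h4'
          split_ifs at hxy1 <;> omega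
  refine h2.trans ?_
  rw [Finset.card_product, Finset.card_range, Finset.card_erase_of_mem (Finset.mem_univ _),
    Finset.card_univ, Fintype.card_option, Fintype.card_fin, Nat.add_sub_cancel]

end upper

lemma ecc_bound {n k : ℕ} (hn : 0 < n) (v : Vt n k) : ecc (G n k) v ≤ k + 3 := by
  apply ecc_le
  intro u
  rw [dist_eq hn]
  obtain ⟨a, l, c⟩ := u
  obtain ⟨b, m, d⟩ := v
  have := l.2
  have := m.2
  rcases c with _ | i <;> rcases d with _ | j <;> simp only [D_ss, D_sn, D_ns, D_nn] <;>
    split_ifs <;> omega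

lemma upper {n k : ℕ} (hn : 0 < n) :
    upperBroadcastNum (G n k) ≤ (k + 1) * n + 4 * (k + 1) * (k + 3) := by
  classical
  apply upper_le
  intro g hg
  have hp' : ∀ v, ∃ x, 0 < g v → Priv (G n k) g v x := by
    intro v
    by_cases hv : 0 < g v
    · obtain ⟨x, hx⟩ := priv_of_min hg v hv
      exact ⟨x, fun _ => hx⟩
    · exact ⟨v, fun h => absurd h hv⟩
  choose p hp using hp'
  have hp1 : ∀ v, 0 < g v → D (p v) v ≤ g v := by
    intro v hv
    rw [← dist_eq hn]
    exact (hp v hv).1
  have hp2 : ∀ v, 0 < g v → ∀ w, w ≠ v → 0 < g w → g w < D (p v) w := by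
    intro v hv w hw hpos
    rw [← dist_eq hn]
    exact (hp v hv).2.1 w hw hpos
  have hp3 : ∀ v, 0 < g v → g v = 1 ∨ D (p v) v = g v := by
    intro v hv
    rw [← dist_eq hn]
    exact (hp v hv).2.2
  have hdom : ∀ u, ∃ v, 0 < g v ∧ D u v ≤ g v := by
    intro u
    obtain ⟨v, h1, h2⟩ := hg.2.1 u
    rw [dist_eq hn] at h2
    exact ⟨v, h1, h2⟩
  have hsplit : ∑ v, g v = ∑ v ∈ univ.filter (fun v => Good g p v), g v +
      ∑ v ∈ univ.filter (fun v => ¬ Good g p v), g v :=
    (Finset.sum_filter_add_sum_filter_not univ (fun v => Good g p v) g).symm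
  have h1 := good_sum hdom hp1 hp2 hp3 (univ.filter (fun v => Good g p v)) (fun v hv => by
    simpa using hv)
  have h2 : ∑ v ∈ univ.filter (fun v => ¬ Good g p v), g v ≤ 4 * (k + 1) * (k + 3) := by
    have h3 : ∑ v ∈ univ.filter (fun v => ¬ Good g p v), g v =
        ∑ v ∈ univ.filter (fun v => 0 < g v ∧ ¬ Good g p v), g v := by
      symm
      apply Finset.sum_subset
      · intro v hv
        simp only [Finset.mem_filter, Finset.mem_univ, true_and] at hv ⊢
        exact hv.2
      · intro v hv hv'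
        simp only [Finset.mem_filter, Finset.mem_univ, true_and] at hv hv'
        by_contra hne
        exact hv' ⟨Nat.pos_of_ne_zero hne, hv⟩
    rw [h3]
    have h4 : (univ.filter (fun v => 0 < g v ∧ ¬ Good g p v)).card ≤ 4 * (k + 1) := by
      have h5 : (univ.filter (fun v => 0 < g v ∧ ¬ Good g p v)).card ≤
          (univ : Finset (Bool × Fin (k + 1) × Bool)).card := by
        apply Finset.card_le_card_of_injOn
          (fun v => ((p v).1, (p v).2.1, decide ((p v).2.2 = none)))
          (fun _ _ => Finset.mem_coe.2 (Finset.mem_univ _))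
        intro v hv w hw hvw
        simp only [Finset.coe_filter, Finset.mem_univ, true_and, Set.mem_ofPred_eq] at hv hw
        simp only [Prod.mk.injEq, decide_eq_decide] at hvw
        obtain ⟨e1, e2, e3⟩ := hvw
        by_contra hne
        by_cases hnone : (p v).2.2 = none
        · -- both private vertices are the same hub
          have hpe : p v = p w := by
            have e4 := e3.1 hnone
            ext1
            · exact e1
            · ext1
              · exact e2
              · rw [hnone, e4]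
          have h6 := hp2 v hv.1 w (Ne.symm hne) hw.1
          have h7 := hp1 w hw.1
          rw [hpe] at h6
          omega
        · obtain ⟨i, hi⟩ := Option.ne_none_iff_exists'.1 hnone
          have hnone' : (p w).2.2 ≠ none := fun h => hnone (e3.2 h)
          obtain ⟨j, hj⟩ := Option.ne_none_iff_exists'.1 hnone'
          apply hv.2
          refine ⟨hv.1, (p v).1, (p v).2.1, i, ?_, v, w, hne, hv.1, hw.1, ⟨i, ?_⟩, ⟨j, ?_⟩⟩
          · rw [← hi]
          · rw [← hi]
          · rw [e1, e2, ← hj]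
      refine h5.trans ?_
      rw [Finset.card_univ]
      simp only [Fintype.card_prod, Fintype.card_bool, Fintype.card_fin]
      omega
    calc ∑ v ∈ univ.filter (fun v => 0 < g v ∧ ¬ Good g p v), g v
        ≤ ∑ _v ∈ univ.filter (fun v => 0 < g v ∧ ¬ Good g p v), (k + 3) :=
          Finset.sum_le_sum fun v _ => (hg.1 v).trans (ecc_bound hn v)
      _ = (univ.filter (fun v => 0 < g v ∧ ¬ Good g p v)).card * (k + 3) := by
          rw [Finset.sum_const, smul_eq_mul]
      _ ≤ 4 * (k + 1) * (k + 3) := Nat.mul_le_mul_right _ h4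
  omega

end Q107.IRB.Family
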