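import Pool.Agent.Q107.Broadcast.Basic

/-!
# The upper irredundant broadcast number: `IR_b < 2 Γ_b` in bipartite graphs
-/

set_option autoImplicit false

namespace Q107.IRB

open SimpleGraph Finset Q107.Broadcast

/-- The upper broadcast irredundance number `IR_b(G)`: the maximum weight of an irredundant
broadcast. -/
noncomputable def upperIrrNum {V : Type} [Fintype V] (G : SimpleGraph V) : ℕ :=
  sSup {k | ∃ f : V → ℕ, IsBroadcast G f ∧ IsIrredundant G f ∧ ∑ v, f v = k}

section

variable {V : Type} [Fintype V] {G : SimpleGraph V}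

lemma le_irr {f : V → ℕ} (hb : IsBroadcast G f) (hp : ∀ v, 0 < f v → ∃ x, Priv G f v x) :
    ∑ v, f v ≤ upperIrrNum G := by
  apply le_csSup
  · refine ⟨∑ v, ecc G v, ?_⟩
    rintro k ⟨g, hg, _, rfl⟩
    exact weight_le_ecc g hg
  · refine ⟨f, hb, fun v hv => ?_, rfl⟩
    obtain ⟨x, hx⟩ := hp v hv
    exact ⟨x, (priv_iff hv).2 hx⟩

lemma irr_le {k : ℕ} (h : ∀ f : V → ℕ, IsBroadcast G f → (∀ v, 0 < f v → ∃ x, Priv G f v x) →
    ∑ v, f v ≤ k) : upperIrrNum G ≤ k := by
  unfold upperIrrNum
  rcases Set.eq_empty_or_nonempty {k | ∃ f : V → ℕ, IsBroadcast G f ∧ IsIrredundant G f ∧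
    ∑ v, f v = k} with h' | h'
  · rw [h']
    simp
  · apply csSup_le h'
    rintro m ⟨f, hf, hi, rfl⟩
    refine h f hf fun v hv => ?_
    obtain ⟨x, hx⟩ := hi v hv
    exact ⟨x, (priv_iff hv).1 hx⟩

omit [Fintype V] in
/-- a vertex on a geodesic -/
lemma exists_between (hG : G.Connected) (u v : V) {t : ℕ} (ht : t ≤ G.dist u v) :
    ∃ q, G.dist u q = t ∧ G.dist q v = G.dist u v - t := by
  obtain ⟨p, hp⟩ := (hG u v).exists_walk_length_eq_dist
  refine ⟨p.getVert t, ?_⟩
  have h1 : G.dist u (p.getVert t) ≤ t := by
    have := dist_le (p.take t)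
    rw [Walk.take_length] at this
    omega
  have h2 : G.dist (p.getVert t) v ≤ G.dist u v - t := by
    have := dist_le (p.drop t)
    rw [Walk.drop_length] at this
    omega
  have h3 := (hG u (p.getVert t)).dist_triangle_left v
  omega

/-- the geodesics from broadcasting vertices to their private boundary vertices are disjoint, so
the weight of an irredundant broadcast is smaller than the number of vertices -/
lemma irr_lt_card (hG : G.Connected) [Nontrivial V] {f : V → ℕ}
    (hp : ∀ v, 0 < f v → ∃ x, Priv G f v x) : ∑ v, f v < Fintype.card V := by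
  classical
  have hp' : ∀ v, ∃ x, 0 < f v → Priv G f v x := by
    intro v
    by_cases hv : 0 < f v
    · obtain ⟨x, hx⟩ := hp v hv
      exact ⟨x, fun _ => hx⟩
    · exact ⟨v, fun h => absurd h hv⟩
  choose p hp using hp'
  have hq' : ∀ (v : V) (t : ℕ), ∃ q, t ≤ G.dist v (p v) →
      G.dist v q = t ∧ G.dist q (p v) = G.dist v (p v) - t := by
    intro v t
    by_cases ht : t ≤ G.dist v (p v)
    · obtain ⟨q, hq⟩ := exists_between hG v (p v) ht
      exact ⟨q, fun _ => hq⟩
    · exact ⟨v, fun h => absurd h ht⟩
  choose q hq using hq'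
  -- a common vertex forces equality of the broadcasting vertices
  have key : ∀ v w : V, 0 < f v → 0 < f w → ∀ t s, t ≤ G.dist v (p v) → s ≤ G.dist w (p w) →
      q v t = q w s → v = w := by
    have aux : ∀ v w : V, 0 < f v → 0 < f w → ∀ t s, t ≤ G.dist v (p v) → s ≤ G.dist w (p w) →
        q v t = q w s → v ≠ w → G.dist v (p v) - t < G.dist w (p w) - s := by
      intro v w hv hw t s ht hs hqq hne
      have h1 := (hp w hw).2.1 v hne hv
      have h2 := (hp v hv).1
      obtain ⟨h3, h4⟩ := hq v t ht
      obtain ⟨h5, h6⟩ := hq w s hs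
      have h7 := (hG v (q v t)).dist_triangle_left (p w)
      rw [h3, hqq, h6] at h7
      rw [SimpleGraph.dist_comm] at h1 h2
      omega
    intro v w hv hw t s ht hs hqq
    by_contra hne
    have h1 := aux v w hv hw t s ht hs hqq hne
    have h2 := aux w v hw hv s t hs ht hqq.symm (Ne.symm hne)
    omega
  have hinj : ∀ v w : V, 0 < f v → 0 < f w → ∀ t s, t ≤ G.dist v (p v) → s ≤ G.dist w (p w) →
      q v t = q w s → v = w ∧ t = s := by
    intro v w hv hw t s ht hs hqq
    have h := key v w hv hw t s ht hs hqq
    subst h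
    refine ⟨rfl, ?_⟩
    have h1 := (hq v t ht).1
    have h2 := (hq v s hs).1
    rw [hqq] at h1
    omega
  have hfd : ∀ v, 0 < f v → f v ≤ G.dist v (p v) + 1 := by
    intro v hv
    rcases (hp v hv).2.2 with h | h
    · omega
    · rw [SimpleGraph.dist_comm] at h
      omega
  -- the injection
  have hcount : ∀ R : Finset V, (∀ v, 0 < f v → ∀ t, t < f v → q v t ∉ R) →
      ∑ v, f v + R.card ≤ Fintype.card V := by
    intro R hR
    have h1 : ((univ : Finset V).sigma fun v => range (f v)).card = ∑ v, f v := by
      rw [Finset.card_sigma]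
      simp
    have h2 : ((univ : Finset V).sigma fun v => range (f v)).card ≤ (univ \ R).card := by
      apply Finset.card_le_card_of_injOn (fun x => q x.1 x.2)
      · rintro ⟨v, t⟩ hx
        simp only [Finset.coe_sigma, Set.mem_sigma_iff, Finset.coe_range, Set.mem_Iio] at hx
        simp only [Finset.coe_sdiff, Finset.coe_univ, Set.mem_sdiff, Set.mem_univ, true_and,
          Finset.mem_coe]
        exact hR v (by omega) t hx.2
      · rintro ⟨v, t⟩ hx ⟨w, s⟩ hy hxy
        simp only [Finset.coe_sigma, Set.mem_sigma_iff, Finset.coe_range, Set.mem_Iio] at hx hy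
        have hv : 0 < f v := by omega
        have hw : 0 < f w := by omega
        have h3 := hfd v hv
        have h4 := hfd w hw
        obtain ⟨h5, h6⟩ := hinj v w hv hw t s (by omega) (by omega) hxy
        subst h5; subst h6
        rfl
    rw [h1, Finset.card_sdiff_of_subset (Finset.subset_univ R), Finset.card_univ] at h2
    have h3 := Finset.card_le_univ R
    omega
  by_cases hcase : ∃ v, 0 < f v ∧ G.dist v (p v) = f v
  · obtain ⟨v, hv, hd⟩ := hcase
    have := hcount {q v (f v)} (by
      intro w hw t ht hmem
      rw [Finset.mem_singleton] at hmem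
      have h4 := hfd w hw
      obtain ⟨h5, h6⟩ := hinj w v hw hv t (f v) (by omega) (by omega) hmem
      subst h5
      omega)
    rw [Finset.card_singleton] at this
    omega
  · push Not at hcase
    -- every broadcasting vertex is its own private vertex
    have hown : ∀ v, 0 < f v → f v = 1 ∧ p v = v := by
      intro v hv
      have h1 := hcase v hv
      rcases (hp v hv).2.2 with h | h
      · refine ⟨h, ?_⟩
        have h2 := (hp v hv).1
        rw [SimpleGraph.dist_comm] at h2
        have h3 : G.dist v (p v) = 0 := by omega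
        exact ((hG v (p v)).dist_eq_zero_iff.1 h3).symm
      · rw [SimpleGraph.dist_comm] at h
        exact absurd h h1
    have hex : ∃ z, f z = 0 := by
      by_contra hcon
      push Not at hcon
      obtain ⟨v, w, hvw⟩ := exists_pair_ne V
      obtain ⟨u, hu⟩ : ∃ u, G.Adj v u := by
        obtain ⟨W⟩ := hG.preconnected v w
        cases W with
        | nil => exact absurd rfl hvw
        | cons h _ => exact ⟨_, h⟩
      have hv := Nat.pos_of_ne_zero (hcon v)
      have hu' := Nat.pos_of_ne_zero (hcon u)
      have h1 := (hp v hv).2.1 u hu.ne' hu'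
      rw [(hown v hv).2, dist_eq_one_iff_adj.2 hu] at h1
      omega
    obtain ⟨z, hz⟩ := hex
    have := hcount {z} (by
      intro w hw t ht hmem
      rw [Finset.mem_singleton] at hmem
      obtain ⟨h1, h2⟩ := hown w hw
      have h3 : t = 0 := by omega
      subst h3
      have h4 := (hq w 0 (Nat.zero_le _)).1
      have h5 := (hG w (q w 0)).dist_eq_zero_iff.1 h4
      rw [← h5] at hmem
      subst hmem
      omega)
    rw [Finset.card_singleton] at this
    omega

/-- a colour class of a connected bipartite graph is a minimal dominating broadcast -/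
lemma color_min (hG : G.Connected) [Nontrivial V] (c : G.Coloring Bool) (b : Bool) :
    IsMinDominating G (fun v => if c v = b then 1 else 0) := by
  have hnb : ∀ v, ∃ u, G.Adj v u := by
    intro v
    obtain ⟨w, hw⟩ := exists_ne v
    obtain ⟨W⟩ := hG.preconnected v w
    cases W with
    | nil => exact absurd rfl hw
    | cons h _ => exact ⟨_, h⟩
  apply min_of_priv
  · intro v
    have := ecc_pos hG v
    dsimp only
    split_ifs <;> omega
  · intro u
    by_cases hu : c u = b
    · refine ⟨u, ?_, ?_⟩
      · simp [hu]
      · simp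
    · obtain ⟨w, hw⟩ := hnb u
      have h1 := c.valid hw
      have h2 : c w = b := by
        cases hcu : c u <;> cases hcw : c w <;> cases b <;> simp_all
      refine ⟨w, ?_, ?_⟩
      · simp [h2]
      · dsimp only
        rw [if_pos h2, dist_eq_one_iff_adj.2 hw]
  · intro v hv
    split_ifs at hv with h1
    · refine ⟨v, by simp, ?_, Or.inl (by simp [h1])⟩
      intro w hw hpos
      beta_reduce at hpos ⊢
      split_ifs at hpos with h2
      · rw [if_pos h2]
        have h3 := (hG v w).pos_dist_of_ne hw.symm
        have h4 : G.dist v w ≠ 1 := by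
          intro h
          have := c.valid (dist_eq_one_iff_adj.1 h)
          exact this (h1.trans h2.symm)
        omega
      · omega
    · omega

/-- in a connected bipartite graph with at least two vertices `IR_b < 2 Γ_b` -/
theorem irr_lt (hG : G.Connected) [Nontrivial V] (hb : G.IsBipartite) :
    upperIrrNum G < 2 * upperBroadcastNum G := by
  classical
  obtain ⟨c⟩ := hb
  let c' : G.Coloring Bool := Coloring.mk (fun v => decide (c v = 0)) (by
    intro v w hvw h
    have h1 := c.valid hvw
    simp only [decide_eq_decide] at h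
    apply h1
    by_cases h2 : c v = 0
    · rw [h2, h.1 h2]
    · have h3 : c w ≠ 0 := fun h4 => h2 (h.2 h4)
      have h5 : c v = 1 := by omega
      have h6 : c w = 1 := by omega
      rw [h5, h6])
  have h1 := le_upper (color_min hG c' true)
  have h2 := le_upper (color_min hG c' false)
  have h3 : (∑ v, if c' v = true then 1 else 0) + (∑ v, if c' v = false then 1 else 0) =
      Fintype.card V := by
    rw [← Finset.sum_add_distrib, ← Finset.card_univ, Finset.card_eq_sum_ones]
    apply Finset.sum_congr rfl
    intro v _
    cases c' v <;> simp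
  have h4 : upperIrrNum G ≤ Fintype.card V - 1 := irr_le fun f _ hp => by
    have := irr_lt_card hG hp
    omega
  have h5 : 0 < Fintype.card V := Fintype.card_pos
  omega

end

end Q107.IRB
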